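import Mathlib

namespace Pool.Agent.Results.MP_7e5e3f_co.Q1

open SimpleGraph Finset
open scoped Classical

variable {V : Type}

/-- Union of the maximum independent sets. -/
def corona [Finite V] (G : SimpleGraph V) : Set V := {v | ∃ S, G.IsMaximumIndepSet S ∧ v ∈ S}

/-- Intersection of the maximum independent sets. -/
def core [Finite V] (G : SimpleGraph V) : Set V := {v | ∀ S, G.IsMaximumIndepSet S → v ∈ S}

/-- `d(X) = |X| - |N(X)|`. -/
noncomputable def dif (G : SimpleGraph V) (X : Finset V) : ℤ :=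
  (X.card : ℤ) - ({v | ∃ x ∈ X, G.Adj x v}.ncard : ℤ)

def Critical (G : SimpleGraph V) (X : Finset V) : Prop :=
  G.IsIndepSet (X : Set V) ∧ ∀ Y : Finset V, G.IsIndepSet (Y : Set V) → dif G Y ≤ dif G X

/-- Intersection of the critical independent sets. -/
def ker (G : SimpleGraph V) : Set V := {v | ∀ S, Critical G S → v ∈ S}

/-- The odd cycles of `G`, each recorded by its edge set. -/
def oddCycles (G : SimpleGraph V) : Set (Set (Sym2 V)) :=
  {E | ∃ (v : V) (c : G.Walk v v), c.IsCycle ∧ Odd c.length ∧ E = {e | e ∈ c.edges}}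

lemma path_par {H : SimpleGraph V} (h : ∀ v (c : H.Walk v v), c.IsCycle → ¬ Odd c.length) :
    ∀ {u v} (p : H.Walk u v), ∃ q : H.Walk u v, q.IsPath ∧ q.length % 2 = p.length % 2
  | _, _, .nil => ⟨.nil, by simp, rfl⟩
  | u, v, .cons (v := x) a p => by
    obtain ⟨q, hq, e⟩ := path_par h p
    by_cases hu : u ∈ q.support
    · have l := congrArg Walk.length (q.take_spec hu)
      rw [Walk.length_append] at l
      refine ⟨q.dropUntil u hu, hq.dropUntil hu, ?_⟩
      have := h u (.cons a (q.takeUntil u hu))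
      rw [Walk.isCycle_iff_isPath_tail_and_le_length, Nat.odd_iff] at this
      have h0 : (q.takeUntil u hu).length ≠ 0 := fun z => a.ne' (Walk.eq_of_length_eq_zero z)
      have hp : (Walk.cons a (q.takeUntil u hu)).tail.IsPath := by simpa using hq.takeUntil hu
      simp only [Walk.length_cons, hp, true_and] at this ⊢
      omega
    · exact ⟨.cons a q, hq.cons hu, by simp only [Walk.length_cons]; omega⟩

lemma two_col {H : SimpleGraph V} (h : ∀ v (c : H.Walk v v), c.IsCycle → ¬ Odd c.length) :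
    H.Colorable 2 := by
  refine two_colorable_iff_forall_loop_even.2 fun u w => ?_
  obtain ⟨q, hq, e⟩ := path_par h w
  rw [Walk.isPath_iff_nil, Walk.nil_iff_length_eq] at hq
  rw [Nat.even_iff, ← e, hq]

lemma ker_sub [Fintype V] (G : SimpleGraph V) : ker G ⊆ core G := by
  intro v hv S hS
  obtain ⟨A, hA, hA'⟩ := exists_max_image (univ.filter fun X : Finset V => G.IsIndepSet (X : Set V))
    (dif G) ⟨∅, by simp⟩
  simp only [mem_filter, mem_univ, true_and] at hA hA'
  let N : Finset V → Finset V := fun X => univ.filter fun v => ∃ x ∈ X, G.Adj x v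
  have hN : ∀ X, dif G X = X.card - (N X).card := fun X => by
    rw [dif, ← Set.ncard_coe_finset (N X)]; simp [N]
  have h1 : ((S \ N A) ∪ A).card ≤ S.card := hS.maximum _ (by
    intro a ha b hb hab hadj
    simp only [N, coe_union, coe_sdiff, coe_filter, mem_univ, true_and, Set.mem_union,
      Set.mem_sdiff, mem_coe, Set.mem_ofPred_eq] at ha hb
    rcases ha with ha | ha <;> rcases hb with hb | hb
    exacts [hS.isIndepSet ha.1 hb.1 hab hadj, ha.2 ⟨b, hb, hadj.symm⟩, hb.2 ⟨a, ha, hadj⟩,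
      hA ha hb hab hadj])
  have h2 : (N (A ∩ S)).card ≤ (N A \ S).card := card_le_card (by
    intro a ha
    simp only [N, mem_filter, mem_univ, true_and, mem_inter, mem_sdiff] at ha ⊢
    obtain ⟨x, hx, hadj⟩ := ha
    exact ⟨⟨x, hx.1, hadj⟩, fun h => hS.isIndepSet hx.2 h hadj.ne hadj⟩)
  have h3 : (S \ N A) ∩ A = A ∩ S := by
    ext a
    simp only [N, mem_filter, mem_univ, true_and, mem_inter, mem_sdiff]
    exact ⟨fun h => ⟨h.2, h.1.1⟩, fun h =>
      ⟨⟨h.2, fun ⟨x, hx, hadj⟩ => hA hx h.1 hadj.ne hadj⟩, h.1⟩⟩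
  have h4 := card_union_add_card_inter (S \ N A) A
  have h5 := card_sdiff_add_card_inter S (N A)
  have h6 := card_sdiff_add_card_inter (N A) S
  rw [h3] at h4
  rw [inter_comm] at h6
  refine (mem_inter.1 (hv (A ∩ S) ⟨fun a ha b hb => hA (mem_inter.1 ha).1 (mem_inter.1 hb).1,
    fun Y hY => (hA' Y hY).trans ?_⟩)).2
  rw [hN, hN]; omega

lemma main [Fintype V] (G : SimpleGraph V) :
    (corona G).ncard + (core G).ncard ≤ 2 * G.indepNum + (oddCycles G).ncard := by
  have hx : ∀ E : oddCycles G, ∃ x, ∃ e ∈ E.1, x ∈ e := by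
    rintro ⟨_, v, c, hc, ho, rfl⟩
    cases c with
    | nil => simp at ho
    | cons a p => exact ⟨v, s(v, _), List.mem_cons_self, by simp⟩
  choose x hx using hx
  let R := Set.range x
  have hR : R.ncard ≤ (oddCycles G).ncard := by
    rw [← Nat.card_coe_set_eq, ← Nat.card_coe_set_eq]
    exact Finite.card_range_le x
  let H : SimpleGraph V := ⟨fun a b => G.Adj a b ∧ a ∉ R ∧ b ∉ R,
    ⟨fun a b h => ⟨h.1.symm, h.2.2, h.2.1⟩⟩, ⟨fun a h => h.1.ne rfl⟩⟩
  have hle : H ≤ G := fun a b h => h.1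
  obtain ⟨c⟩ : H.Colorable 2 := two_col fun v w hw ho => by
    obtain ⟨e, he, hxe⟩ := hx ⟨_, v, w.mapLe hle, hw.mapLe hle, by simpa using ho, rfl⟩
    have : e ∈ H.edgeSet := w.edges_subset_edgeSet (by simpa using he)
    induction e using Sym2.ind
    rcases Sym2.mem_iff.1 hxe with h | h
    exacts [this.2.1 ⟨_, h⟩, this.2.2 ⟨_, h⟩]
  let W : Fin 2 → Set V := fun i => {v | v ∈ corona G ∧ v ∉ core G ∧ v ∉ R ∧ c v = i}
  obtain ⟨S0, hS0⟩ := G.maximumIndepSet_exists
  have hW : ∀ i, (W i).ncard + (core G).ncard ≤ G.indepNum := fun i => by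
    rw [← Set.ncard_union_eq (Set.disjoint_left.2 fun v h => h.2.1), Set.ncard_eq_toFinset_card']
    refine IsIndepSet.card_le_indepNum ?_
    rw [Set.coe_toFinset]
    rintro a (ha | ha) b (hb | hb) hab hadj
    · exact c.valid (show H.Adj a b from ⟨hadj, ha.2.2.1, hb.2.2.1⟩) (ha.2.2.2.trans hb.2.2.2.symm)
    · obtain ⟨S, hS, h⟩ := ha.1; exact hS.isIndepSet h (hb S hS) hab hadj
    · obtain ⟨S, hS, h⟩ := hb.1; exact hS.isIndepSet (ha S hS) h hab hadj
    · exact hS0.isIndepSet (ha _ hS0) (hb _ hS0) hab hadj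
  have h1 : (corona G).ncard ≤ (W 0 ∪ W 1 ∪ core G ∪ R).ncard := Set.ncard_le_ncard fun v hv => by
    by_cases a : v ∈ R
    · exact Or.inr a
    by_cases b : v ∈ core G
    · exact Or.inl (Or.inr b)
    have : c v = 0 ∨ c v = 1 := by omega
    exact Or.inl (Or.inl (this.imp (fun h => ⟨hv, b, a, h⟩) fun h => ⟨hv, b, a, h⟩))
  have h2 := Set.ncard_union_le (W 0 ∪ W 1 ∪ core G) R
  have h3 := Set.ncard_union_le (W 0 ∪ W 1) (core G)
  have h4 := Set.ncard_union_le (W 0) (W 1)
  have := hW 0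
  have := hW 1
  omega

theorem result (V : Type) [Fintype V] (G : SimpleGraph V) :
    (corona G).ncard + (ker G).ncard ≤ 2 * G.indepNum + (oddCycles G).ncard ∧
    (corona G).ncard + (core G).ncard ≤ 2 * G.indepNum + (oddCycles G).ncard := by
  have := Set.ncard_le_ncard (ker_sub G)
  have := main G
  omega

end Pool.Agent.Results.MP_7e5e3f_co.Q1
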