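import Mathlib

namespace Pool.Agent.Results.MP_7e5e3f_co.Q2

open SimpleGraph Finset
open scoped Classical

variable {V : Type}

/-- Union of the maximum independent sets. -/
def corona [Finite V] (G : SimpleGraph V) : Set V := {v | ∃ S, G.IsMaximumIndepSet S ∧ v ∈ S}

/-- `d(X) = |X| - |N(X)|`. -/
noncomputable def dif (G : SimpleGraph V) (X : Finset V) : ℤ :=
  (X.card : ℤ) - ({v | ∃ x ∈ X, G.Adj x v}.ncard : ℤ)

def Critical (G : SimpleGraph V) (X : Finset V) : Prop :=
  G.IsIndepSet (X : Set V) ∧ ∀ Y : Finset V, G.IsIndepSet (Y : Set V) → dif G Y ≤ dif G X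

/-- Intersection of the critical independent sets. -/
def ker (G : SimpleGraph V) : Set V := {v | ∀ S, Critical G S → v ∈ S}

/-- The odd cycles of `G`, each recorded by its edge set. -/
def oddCycles (G : SimpleGraph V) : Set (Set (Sym2 V)) :=
  {E | ∃ (v : V) (c : G.Walk v v), c.IsCycle ∧ Odd c.length ∧ E = {e | e ∈ c.edges}}

/-- The vertices left uncovered by some maximum matching. -/
def dSet (G : SimpleGraph V) : Set V :=
  {v | ∃ M : G.Subgraph, M.IsMatching ∧
    (∀ M' : G.Subgraph, M'.IsMatching → M'.edgeSet.ncard ≤ M.edgeSet.ncard) ∧ v ∉ M.verts}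

/-- The maximum number of pairwise vertex-disjoint odd cycles. -/
noncomputable def oddPack (G : SimpleGraph V) : ℕ :=
  sSup {n | ∃ c : Fin n → Σ v, G.Walk v v, (∀ i, (c i).2.IsCycle ∧ Odd (c i).2.length) ∧
    ∀ i j, i ≠ j → ∀ x ∈ (c i).2.support, x ∉ (c j).2.support}

abbrev K4 : SimpleGraph (Fin 4) := ⊤

lemma card_le {S : Finset (Fin 4)} (h : K4.IsIndepSet (S : Set (Fin 4))) : S.card ≤ 1 :=
  card_le_one.2 fun a ha b hb => by_contra fun e => h ha hb e e

lemma hD : dSet K4 = ∅ := by
  ext v
  simp only [Set.mem_empty_iff_false, iff_false]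
  rintro ⟨M, hM, h, hv⟩
  let M' : K4.Subgraph := K4.subgraphOfAdj (show K4.Adj 0 1 by decide) ⊔
    K4.subgraphOfAdj (show K4.Adj 2 3 by decide)
  have h1 : M'.IsMatching := (Subgraph.IsMatching.subgraphOfAdj _).sup
    (Subgraph.IsMatching.subgraphOfAdj _) (by simp [support_subgraphOfAdj])
  have h2 : 1 < M'.edgeSet.ncard := (Set.one_lt_ncard_iff (Set.toFinite _)).2
    ⟨s(0, 1), s(2, 3), by simp [M'], by simp [M'], by decide⟩
  obtain ⟨e, f, he, hf, hef⟩ := (Set.one_lt_ncard_iff (Set.toFinite _)).1 (h2.trans_le (h _ h1))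
  induction e using Sym2.ind with | _ a b
  induction f using Sym2.ind with | _ c d
  rw [Subgraph.mem_edgeSet] at he hf
  have u : ∀ {x y z}, M.Adj x y → M.Adj x z → y = z := fun p q => (hM (M.edge_vert p)).unique p q
  have n1 : a ≠ c := by rintro rfl; exact hef (by rw [u he hf])
  have n2 : a ≠ d := by rintro rfl; exact hef (by rw [u he hf.symm, Sym2.eq_swap])
  have n3 : b ≠ c := by rintro rfl; exact hef (by rw [u he.symm hf, Sym2.eq_swap])
  have n4 : b ≠ d := by rintro rfl; exact hef (by rw [u he.symm hf.symm])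
  have n5 := he.ne
  have n6 := hf.ne
  have : v = a ∨ v = b ∨ v = c ∨ v = d := by omega
  rcases this with rfl | rfl | rfl | rfl
  exacts [hv (M.edge_vert he), hv (M.edge_vert he.symm), hv (M.edge_vert hf),
    hv (M.edge_vert hf.symm)]

theorem result :
    2 * K4.indepNum + (oddCycles (K4.induce (dSet K4))).ncard <
      (corona K4).ncard + (ker K4).ncard ∧
    2 * K4.indepNum + oddPack K4 < (corona K4).ncard + (ker K4).ncard := by
  have h1 : K4.indepNum ≤ 1 := by
    obtain ⟨s, hs⟩ := K4.exists_isNIndepSet_indepNum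
    rw [← hs.card_eq]; exact card_le hs.isIndepSet
  have h2 : corona K4 = Set.univ := Set.eq_univ_of_forall fun v =>
    ⟨{v}, ⟨by simp, fun t ht => by simpa using card_le ht⟩, by simp⟩
  have h3 : oddCycles (K4.induce (dSet K4)) = ∅ := by
    ext E
    simp only [Set.mem_empty_iff_false, iff_false]
    rintro ⟨⟨v, hv⟩, -⟩
    rw [hD] at hv; exact hv
  have h4 : oddPack K4 ≤ 1 := csSup_le' (by
    rintro n ⟨c, hc, hd⟩
    by_contra hn
    have l : ∀ i, 3 ≤ (c i).2.support.tail.toFinset.card := fun i => by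
      rw [List.toFinset_card_of_nodup (hc i).1.support_nodup, List.length_tail,
        Walk.length_support]
      exact (hc i).1.three_le_length
    have d : Disjoint (c ⟨0, by omega⟩).2.support.tail.toFinset
        (c ⟨1, by omega⟩).2.support.tail.toFinset := disjoint_left.2 fun x a b =>
      hd _ _ (by simp) x (List.mem_of_mem_tail (List.mem_toFinset.1 a))
        (List.mem_of_mem_tail (List.mem_toFinset.1 b))
    have := card_le_univ ((c ⟨0, by omega⟩).2.support.tail.toFinset ∪
        (c ⟨1, by omega⟩).2.support.tail.toFinset)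
    rw [card_union_of_disjoint d, Fintype.card_fin] at this
    have := l ⟨0, by omega⟩
    have := l ⟨1, by omega⟩
    omega)
  rw [h2, h3, Set.ncard_univ, Nat.card_eq_fintype_card, Fintype.card_fin, Set.ncard_empty]
  omega

end Pool.Agent.Results.MP_7e5e3f_co.Q2
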